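import Pool.Agent.Helper67.DO.StmtsT

/-!
# MP_d07457_gt, module T3: homogeneous versus inhomogeneous cochains
-/

set_option autoImplicit false

namespace Pool.Agent.Helper67.DO

open scoped BigOperators Real

/-! ### coboundaries -/

theorem t3_prQ_zero (p : ℕ) (y : Sq) : prQ p (rm 0 y) = fun i => prQ (p + 1) y i.succ := by
  funext i
  show cls (rm 0 y i) * (cls (rm 0 y ((i : ℕ) + 1)))⁻¹ = _
  rfl

theorem t3_prQ_succ (p : ℕ) (y : Sq) (j : Fin (p + 1)) :
    prQ p (rm ((j : ℕ) + 1) y) = Fin.contractNth j (· * ·) (prQ (p + 1) y) := by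
  funext k
  rcases lt_trichotomy (k : ℕ) (j : ℕ) with h | h | h
  · rw [Fin.contractNth_apply_of_lt j _ _ k h]
    show cls (rm _ y k) * (cls (rm _ y ((k : ℕ) + 1)))⁻¹ = cls (y (k : ℕ)) * (cls (y ((k : ℕ) + 1)))⁻¹
    unfold rm
    rw [if_pos (by omega), if_pos (by omega)]
  · rw [Fin.contractNth_apply_of_eq j _ _ k h]
    show cls (rm _ y k) * (cls (rm _ y ((k : ℕ) + 1)))⁻¹ =
      (cls (y (k : ℕ)) * (cls (y ((k : ℕ) + 1)))⁻¹) * (cls (y ((k : ℕ) + 1)) * (cls (y ((k : ℕ) + 1 + 1)))⁻¹)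
    unfold rm
    rw [if_pos (by omega), if_neg (by omega)]
    group
  · rw [Fin.contractNth_apply_of_gt j _ _ k h]
    show cls (rm _ y k) * (cls (rm _ y ((k : ℕ) + 1)))⁻¹ =
      cls (y ((k : ℕ) + 1)) * (cls (y ((k : ℕ) + 1 + 1)))⁻¹
    unfold rm
    rw [if_neg (by omega), if_neg (by omega)]

theorem t3_dlt (p : ℕ) (c : (Fin p → DiffOmega) → ℝ) (y : Sq) :
    dlt p (Cc p c) y = ((cobd p c (prQ (p + 1) y) : ℝ) : ℂ) := by
  unfold dlt cobd Cc
  rw [Finset.sum_range_succ']
  rw [Finset.sum_range (fun i => (-1 : ℂ) ^ (i + 1) * ((c (prQ p (rm (i + 1) y)) : ℝ) : ℂ))]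
  have h : ∀ j : Fin (p + 1), (-1 : ℂ) ^ ((j : ℕ) + 1) * ((c (prQ p (rm ((j : ℕ) + 1) y)) : ℝ) : ℂ) =
      (((-1 : ℝ) ^ ((j : ℕ) + 1) * c (Fin.contractNth j (· * ·) (prQ (p + 1) y)) : ℝ) : ℂ) := by
    intro j
    rw [t3_prQ_succ]
    push_cast
    rfl
  rw [Finset.sum_congr rfl (fun j _ => h j), t3_prQ_zero]
  push_cast
  ring

theorem t3_rm_rm (i j : ℕ) (hij : j < i) (y : Sq) : rm j (rm i y) = rm (i - 1) (rm j y) := by
  funext k
  unfold rm
  by_cases h1 : k < j
  · rw [if_pos h1, if_pos (by omega), if_pos (by omega), if_pos (by omega)]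
  · rw [if_neg h1]
    by_cases h2 : k + 1 < i
    · rw [if_pos h2, if_pos (by omega), if_neg (by omega)]
    · rw [if_neg h2, if_neg (by omega), if_neg (by omega)]

theorem t3_dlt_dlt (p : ℕ) (C : Sq → ℂ) (y : Sq) : dlt (p + 1) (dlt p C) y = 0 := by
  unfold dlt
  have h1 : ∑ i ∈ Finset.range (p + 1 + 2), (-1 : ℂ) ^ i *
      ∑ j ∈ Finset.range (p + 2), (-1 : ℂ) ^ j * C (rm j (rm i y)) =
      ∑ x ∈ Finset.range (p + 3) ×ˢ Finset.range (p + 2),
        (-1 : ℂ) ^ (x.1 + x.2) * C (rm x.2 (rm x.1 y)) := by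
    rw [Finset.sum_product]
    refine Finset.sum_congr rfl ?_
    intro i _
    rw [Finset.mul_sum]
    refine Finset.sum_congr rfl ?_
    intro j _
    rw [pow_add]
    ring
  rw [h1]
  rw [← Finset.sum_filter_add_sum_filter_not (Finset.range (p + 3) ×ˢ Finset.range (p + 2))
    (fun x : ℕ × ℕ => x.2 < x.1)]
  have h2 : ∑ x ∈ (Finset.range (p + 3) ×ˢ Finset.range (p + 2)).filter (fun x : ℕ × ℕ => x.2 < x.1),
        (-1 : ℂ) ^ (x.1 + x.2) * C (rm x.2 (rm x.1 y)) =
      ∑ x ∈ (Finset.range (p + 3) ×ˢ Finset.range (p + 2)).filter (fun x : ℕ × ℕ => ¬ x.2 < x.1),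
        - ((-1 : ℂ) ^ (x.1 + x.2) * C (rm x.2 (rm x.1 y))) := by
    refine Finset.sum_nbij' (fun x => (x.2, x.1 - 1)) (fun x => (x.2 + 1, x.1)) ?_ ?_ ?_ ?_ ?_
    · rintro ⟨i, j⟩ hx
      simp only [Finset.mem_filter, Finset.mem_product, Finset.mem_range] at hx ⊢
      omega
    · rintro ⟨i, j⟩ hx
      simp only [Finset.mem_filter, Finset.mem_product, Finset.mem_range] at hx ⊢
      omega
    · rintro ⟨i, j⟩ hx
      simp only [Finset.mem_filter, Finset.mem_product, Finset.mem_range] at hx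
      show ((i - 1) + 1, j) = (i, j)
      rw [Nat.sub_add_cancel (by omega)]
    · rintro ⟨i, j⟩ hx
      show (i, j + 1 - 1) = (i, j)
      rw [Nat.add_sub_cancel]
    · rintro ⟨i, j⟩ hx
      simp only [Finset.mem_filter, Finset.mem_product, Finset.mem_range] at hx
      show (-1 : ℂ) ^ (i + j) * C (rm j (rm i y)) =
        - ((-1 : ℂ) ^ (j + (i - 1)) * C (rm (i - 1) (rm j y)))
      rw [t3_rm_rm i j hx.2]
      have : i + j = (j + (i - 1)) + 1 := by omega
      rw [this, pow_succ]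
      ring
  rw [h2, ← Finset.sum_add_distrib]
  apply Finset.sum_eq_zero
  intro x _
  ring

/-! ### calculus -/

theorem t3_deriv_per {a : ℝ → ℝ} (ha : IsLift a) (x : ℝ) : deriv a (x + 1) = deriv a x := by
  have h1 : deriv (fun t => a (t + 1)) x = deriv a (x + 1) := deriv_comp_add_const _ _ _
  have h2 : (fun t => a (t + 1)) = fun t => a t + 1 := funext ha.per
  rw [h2, deriv_add_const] at h1
  exact h1.symm

theorem t3_deriv_cont {a : ℝ → ℝ} (ha : IsLift a) : Continuous (deriv a) :=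
  continuous_iff_continuousAt.2 fun x => (ha.an x).deriv.continuousAt

theorem t3_subst {C : ℝ → ℝ} (hC : IsLift C) (h : ℝ → ℝ) (hc : Continuous h)
    (hp : ∀ x, h (x + 1) = h x) :
    ∫ x in (0 : ℝ)..1, h (C x) * deriv C x = ∫ t in (0 : ℝ)..1, h t := by
  have h1 : ∫ x in (0 : ℝ)..1, (h ∘ C) x * deriv C x = ∫ x in C 0..C 1, h x :=
    intervalIntegral.integral_comp_mul_deriv (fun x _ => (hC.diff x).hasDerivAt)
      (t3_deriv_cont hC).continuousOn hc
  have h2 : C 1 = C 0 + 1 := by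
    have := hC.per 0
    rwa [zero_add] at this
  have h3 : Function.Periodic h 1 := hp
  have h4 := h3.intervalIntegral_add_eq (C 0) 0
  rw [zero_add] at h4
  rw [h2, h4] at h1
  exact h1

theorem t3_inv_deriv {b B : ℝ → ℝ} (hb : IsLift b) (hB : IsLift B) (h : ∀ x, b (B x) = x) (x : ℝ) :
    deriv b (B x) * deriv B x = 1 := by
  have h1 := (hb.diff (B x)).hasDerivAt.comp x (hB.diff x).hasDerivAt
  have h2 : HasDerivAt (b ∘ B) 1 x := by
    have : (b ∘ B) = fun x => x := funext h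
    rw [this]
    exact hasDerivAt_id' x
  exact h1.unique h2

theorem t3_tau {a b B : ℝ → ℝ} (ha : IsLift a) (hb : IsLift b) (hB : IsLift B)
    (h : ∀ x, b (B x) = x) : tau (fun x => a (B x)) = thH a b := by
  have h1 : tau (fun x => a (B x)) = ∫ t in (0 : ℝ)..1, (a t - b t) * deriv b t := by
    rw [← t3_subst hB (fun t => (a t - b t) * deriv b t)
      ((ha.cont.sub hb.cont).mul (t3_deriv_cont hb)) ?_]
    · unfold tau
      refine intervalIntegral.integral_congr ?_
      intro x _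
      show a (B x) - x = (a (B x) - b (B x)) * deriv b (B x) * deriv B x
      rw [mul_assoc, t3_inv_deriv hb hB h, mul_one, h]
    · intro x
      show (a (x + 1) - b (x + 1)) * deriv b (x + 1) = _
      rw [ha.per, hb.per, t3_deriv_per hb]
      ring
  have h2 : ∫ t in (0 : ℝ)..1, (a t - b t) * (deriv a t - deriv b t) = 0 := by
    have h3 : ∀ t ∈ Set.uIcc (0 : ℝ) 1, HasDerivAt (fun t => (1 / 2) * (a t - b t) ^ 2)
        ((a t - b t) * (deriv a t - deriv b t)) t := by
      intro t _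
      have h4 := ((ha.diff t).hasDerivAt.sub (hb.diff t).hasDerivAt).pow 2
      have h5 := h4.const_mul (1 / 2 : ℝ)
      refine h5.congr_deriv ?_
      simp
      ring
    rw [intervalIntegral.integral_eq_sub_of_hasDerivAt h3
      (((ha.cont.sub hb.cont).mul ((t3_deriv_cont ha).sub (t3_deriv_cont hb))).intervalIntegrable _ _)]
    have h6 := ha.per 0
    have h7 := hb.per 0
    rw [zero_add] at h6 h7
    rw [h6, h7]
    ring
  rw [h1]
  unfold thH
  have h8 : ∀ t, (a t - b t) * (deriv a t + deriv b t) =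
      (a t - b t) * (deriv a t - deriv b t) + 2 * ((a t - b t) * deriv b t) := by
    intro t
    ring
  have h9 : ∫ t in (0 : ℝ)..1, (a t - b t) * (deriv a t + deriv b t) =
      (∫ t in (0 : ℝ)..1, (a t - b t) * (deriv a t - deriv b t)) +
      ∫ t in (0 : ℝ)..1, 2 * ((a t - b t) * deriv b t) := by
    rw [← intervalIntegral.integral_add]
    · exact intervalIntegral.integral_congr (fun t _ => h8 t)
    · exact ((ha.cont.sub hb.cont).mul ((t3_deriv_cont ha).sub (t3_deriv_cont hb))).intervalIntegrable _ _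
    · exact (((ha.cont.sub hb.cont).mul (t3_deriv_cont hb)).const_mul 2).intervalIntegrable _ _
  rw [h9, h2, intervalIntegral.integral_const_mul]
  ring

theorem t3_cls {a b B : ℝ → ℝ} (h1 : ST_T1) (ha : IsLift a) (hb : IsLift b) (hB : IsLift B)
    (h : ∀ x, B (b x) = x) : cls a * (cls b)⁻¹ = cls (fun x => a (B x)) := by
  obtain ⟨-, -, -, hcomp, -, -⟩ := h1
  have h2 := hcomp (fun x => a (B x)) b (ha.comp hB) hb
  have h3 : (fun x => (fun x => a (B x)) (b x)) = a := by
    funext x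
    show a (B (b x)) = a x
    rw [h]
  rw [h3] at h2
  rw [h2]
  group

theorem t3_eul (h1 : ST_T1) (h2 : ST_T2) (a b c : ℝ → ℝ) (ha : IsLift a) (hb : IsLift b)
    (hc : IsLift c) : eul (cls a * (cls b)⁻¹) (cls b * (cls c)⁻¹) = eH a b c := by
  obtain ⟨B, hB, hB1, hB2⟩ := hb.exists_inv
  obtain ⟨C, hC, hC1, hC2⟩ := hc.exists_inv
  rw [t3_cls h1 ha hb hB hB2, t3_cls h1 hb hc hC hC2]
  rw [h2.1 _ _ _ _ (h1.1 _ (ha.comp hB)) (h1.1 _ (hb.comp hC))]
  have h3 : (fun x => (fun x => a (B x)) ((fun x => b (C x)) x)) = fun x => a (C x) := by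
    funext x
    show a (B (b (C x))) = a (C x)
    rw [hB2]
  have h3' : tau (fun x => a (B (b (C x)))) = tau (fun x => a (C x)) := congrArg tau h3
  show tau (fun x => a (B x)) + tau (fun x => b (C x)) - tau (fun x => a (B (b (C x)))) = _
  rw [h3', t3_tau ha hb hB hB1, t3_tau hb hc hC hC1, t3_tau ha hc hC hC1]
  rfl

/-- the logarithm of the derivative -/
theorem t3_log_hasDeriv {a : ℝ → ℝ} (ha : IsLift a) (x : ℝ) :
    HasDerivAt (fun t => Real.log (deriv a t)) (deriv (deriv a) x / deriv a x) x :=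
  ((ha.an x).deriv.differentiableAt.hasDerivAt).log (ha.pos x).ne'

theorem t3_gvc (h1 : ST_T1) (h2 : ST_T2) (a b c : ℝ → ℝ) (ha : IsLift a) (hb : IsLift b)
    (hc : IsLift c) : gvc (cls a * (cls b)⁻¹) (cls b * (cls c)⁻¹) = gvH a b c := by
  obtain ⟨B, hB, hB1, hB2⟩ := hb.exists_inv
  obtain ⟨C, hC, hC1, hC2⟩ := hc.exists_inv
  rw [t3_cls h1 ha hb hB hB2, t3_cls h1 hb hc hC hC2]
  rw [h2.2.2 _ _ _ _ (h1.1 _ (ha.comp hB)) (h1.1 _ (hb.comp hC))]
  have h3 : (fun x => (fun x => a (B x)) ((fun x => b (C x)) x)) = fun x => a (C x) := by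
    funext x
    show a (B (b (C x))) = a (C x)
    rw [hB2]
  have hCd : ∀ x, deriv C x = (deriv c (C x))⁻¹ := by
    intro x
    have h4 := t3_inv_deriv hc hC hC1 x
    have h5 := (hc.pos (C x)).ne'
    field_simp
    linarith
  have hlog : ∀ f : ℝ → ℝ, IsLift f → ∀ x, Real.log (deriv (fun t => f (C t)) x) =
      Real.log (deriv f (C x)) - Real.log (deriv c (C x)) := by
    intro f hf x
    have h5 : deriv (fun t => f (C t)) x = deriv f (C x) * deriv C x :=
      ((hf.diff (C x)).hasDerivAt.comp x (hC.diff x).hasDerivAt).deriv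
    rw [h5, hCd, Real.log_mul (hf.pos _).ne' (inv_ne_zero (hc.pos _).ne'), Real.log_inv]
    ring
  have hd : ∀ x, HasDerivAt (fun t => Real.log (deriv b t) - Real.log (deriv c t))
      (deriv (deriv b) x / deriv b x - deriv (deriv c) x / deriv c x) x :=
    fun x => (t3_log_hasDeriv hb x).sub (t3_log_hasDeriv hc x)
  have hdc : Continuous (deriv (fun t => Real.log (deriv b t) - Real.log (deriv c t))) := by
    have h6 : deriv (fun t => Real.log (deriv b t) - Real.log (deriv c t)) =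
        fun x => deriv (deriv b) x / deriv b x - deriv (deriv c) x / deriv c x :=
      funext fun x => (hd x).deriv
    rw [h6]
    have h7 : ∀ f : ℝ → ℝ, IsLift f → Continuous (deriv (deriv f)) := fun f hf =>
      continuous_iff_continuousAt.2 fun x => (hf.an x).deriv.deriv.continuousAt
    exact ((h7 b hb).div (t3_deriv_cont hb) (fun x => (hb.pos x).ne')).sub
      ((h7 c hc).div (t3_deriv_cont hc) (fun x => (hc.pos x).ne'))
  have hlc : ∀ f : ℝ → ℝ, IsLift f → Continuous (fun x => Real.log (deriv f x)) := fun f hf =>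
    (t3_deriv_cont hf).log (fun x => (hf.pos x).ne')
  have hper : ∀ x, deriv (fun t => Real.log (deriv b t) - Real.log (deriv c t)) (x + 1) =
      deriv (fun t => Real.log (deriv b t) - Real.log (deriv c t)) x := by
    intro x
    have h8 : deriv (fun t => (fun t => Real.log (deriv b t) - Real.log (deriv c t)) (t + 1)) x =
      deriv (fun t => Real.log (deriv b t) - Real.log (deriv c t)) (x + 1) :=
      deriv_comp_add_const (fun t => Real.log (deriv b t) - Real.log (deriv c t)) 1 x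
    rw [← h8]
    congr 1
    funext t
    show Real.log (deriv b (t + 1)) - Real.log (deriv c (t + 1)) = _
    rw [t3_deriv_per hb, t3_deriv_per hc]
  have h9 : gvH a b c = ∫ x in (0 : ℝ)..1, ((Real.log (deriv a (C x)) - Real.log (deriv c (C x))) *
      deriv (fun t => Real.log (deriv b t) - Real.log (deriv c t)) (C x)) * deriv C x := by
    unfold gvH
    refine (t3_subst hC (fun x => (Real.log (deriv a x) - Real.log (deriv c x)) *
      deriv (fun t => Real.log (deriv b t) - Real.log (deriv c t)) x)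
      (((hlc a ha).sub (hlc c hc)).mul hdc) ?_).symm
    intro x
    show (Real.log (deriv a (x + 1)) - Real.log (deriv c (x + 1))) *
      deriv (fun t => Real.log (deriv b t) - Real.log (deriv c t)) (x + 1) = _
    rw [t3_deriv_per ha, t3_deriv_per hc, hper]
  rw [h9]
  refine intervalIntegral.integral_congr ?_
  intro x _
  show Real.log (deriv (fun x => a (B (b (C x)))) x) *
    deriv (fun t => Real.log (deriv (fun x => b (C x)) t)) x = _
  have h10 : deriv (fun x => a (B (b (C x)))) x = deriv (fun t => a (C t)) x :=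
    congrArg (fun f => deriv f x) h3
  have h11 : (fun t => Real.log (deriv (fun x => b (C x)) t)) =
      fun t => (fun t => Real.log (deriv b t) - Real.log (deriv c t)) (C t) :=
    funext fun t => hlog b hb t
  have h12 : deriv (fun t => (fun t => Real.log (deriv b t) - Real.log (deriv c t)) (C t)) x =
      deriv (fun t => Real.log (deriv b t) - Real.log (deriv c t)) (C x) * deriv C x := by
    have h13 := (hd (C x)).comp x (hC.diff x).hasDerivAt
    rw [(hd (C x)).deriv]
    exact h13.deriv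
  rw [h10, hlog a ha, h11, h12]
  ring

/-! ### the module -/

theorem t3_cup (κ : DiffOmega → DiffOmega → ℝ) (κH : (ℝ → ℝ) → (ℝ → ℝ) → (ℝ → ℝ) → ℝ)
    (h : ∀ a b c : ℝ → ℝ, IsLift a → IsLift b → IsLift c →
      κ (cls a * (cls b)⁻¹) (cls b * (cls c)⁻¹) = κH a b c) (m : ℕ) (y : Sq) (hy : ∀ k, IsLift (y k)) :
    ((cupPow κ m (prQ (2 * m) y) : ℝ) : ℂ) =
      ∏ i ∈ Finset.range m, (κH (y (2 * i)) (y (2 * i + 1)) (y (2 * i + 2)) : ℂ) := by
  unfold cupPow
  rw [Finset.prod_range (fun i => (κH (y (2 * i)) (y (2 * i + 1)) (y (2 * i + 2)) : ℂ))]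
  push_cast
  refine Finset.prod_congr rfl ?_
  intro i _
  congr 1
  exact h (y (2 * i)) (y (2 * i + 1)) (y (2 * i + 2)) (hy _) (hy _) (hy _)

theorem t3_surj (h1 : ST_T1) (q : ℕ) (g : Fin q → DiffOmega) :
    ∃ y : Sq, (∀ k, IsLift (y k)) ∧ prQ q y = g := by
  classical
  obtain ⟨-, -, -, -, -, hl⟩ := h1
  let gx : ℕ → DiffOmega := fun k => if hk : k < q then g ⟨k, hk⟩ else 1
  let hh : ℕ → DiffOmega := fun k => Nat.rec 1 (fun k h => (gx k)⁻¹ * h) k
  have hs : ∀ k, hh (k + 1) = (gx k)⁻¹ * hh k := fun k => rfl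
  refine ⟨fun k => lft (hh k), fun k => ((exists_liftG (hh k)).choose_spec).1, ?_⟩
  funext i
  show cls (lft (hh i)) * (cls (lft (hh ((i : ℕ) + 1))))⁻¹ = g i
  rw [hl, hl, hs]
  have h2 : gx i = g i := by
    show (if hk : (i : ℕ) < q then g ⟨i, hk⟩ else 1) = g i
    rw [dif_pos i.2]
  rw [h2]
  group

theorem st_T3 (h1 : ST_T1) (h2 : ST_T2) : ST_T3 := by
  refine ⟨fun p c y _ => t3_dlt p c y, fun a b c ha hb hc => t3_eul h1 h2 a b c ha hb hc,
    fun a b c ha hb hc => t3_gvc h1 h2 a b c ha hb hc, ?_, ?_, ?_⟩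
  · intro m y hy
    exact t3_cup eul eH (fun a b c ha hb hc => t3_eul h1 h2 a b c ha hb hc) m y hy
  · intro m y hy
    exact t3_cup gvc gvH (fun a b c ha hb hc => t3_gvc h1 h2 a b c ha hb hc) m y hy
  · intro p c
    funext g
    obtain ⟨y, hy, rfl⟩ := t3_surj h1 (p + 1 + 1) g
    have h3 := t3_dlt (p + 1) (cobd p c) y
    have h4 : Cc (p + 1) (cobd p c) = dlt p (Cc p c) := by
      funext z
      exact (t3_dlt p c z).symm
    rw [h4, t3_dlt_dlt] at h3
    have h5 : cobd (p + 1) (cobd p c) (prQ (p + 1 + 1) y) = 0 := by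
      exact_mod_cast h3.symm
    exact h5

end Pool.Agent.Helper67.DO
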