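import Pool.Agent.Helper67.DO.StmtsD

/-!
# MP_d07457_gt, module D6: test functions along polynomial families
-/

set_option autoImplicit false

namespace Pool.Agent.Helper67.DO

open scoped BigOperators Real Topology
open MeasureTheory

/-- jointly continuous functions, holomorphic and 1-periodic in a strip -/
structure D6Nice {Ω : Type} [TopologicalSpace Ω] (r : ℝ) (ψ : Ω → ℂ → ℂ) : Prop where
  cont : ContinuousOn (fun x : Ω × ℂ => ψ x.1 x.2) (Set.univ ×ˢ St r)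
  hol : ∀ ω, DifferentiableOn ℂ (ψ ω) (St r)
  per : ∀ ω, ∀ z ∈ St r, ψ ω (z + 1) = ψ ω z

theorem d6_St_open (r : ℝ) : IsOpen (St r) := by
  have : St r = (fun z : ℂ => |z.im|) ⁻¹' Set.Iio r := rfl
  rw [this]
  exact isOpen_Iio.preimage (Complex.continuous_im.abs)

theorem d6_real_mem {r : ℝ} (hr : 0 < r) (x : ℝ) : (x : ℂ) ∈ St r := by
  show |(x : ℂ).im| < r
  rw [Complex.ofReal_im, abs_zero]
  exact hr

theorem d6_nice_deriv {Ω : Type} [TopologicalSpace Ω] {r : ℝ} {ψ : Ω → ℂ → ℂ} (h : D6Nice r ψ) :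
    D6Nice r (fun ω => deriv (ψ ω)) := by
  have hU := d6_St_open r
  refine ⟨?_, fun ω => (h.hol ω).deriv hU, ?_⟩
  · rintro ⟨ω0, z0⟩ ⟨-, hz0⟩
    apply ContinuousAt.continuousWithinAt
    have hlu : TendstoLocallyUniformlyOn (fun ω : Ω => ψ ω) (ψ ω0) (𝓝 ω0) (St r) := by
      rw [Metric.tendstoLocallyUniformlyOn_iff]
      intro ε hε z hz
      have hc : ContinuousAt (fun x : Ω × ℂ => ψ x.1 x.2) (ω0, z) :=
        (h.cont (ω0, z) ⟨trivial, hz⟩).continuousAt ((isOpen_univ.prod hU).mem_nhds ⟨trivial, hz⟩)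
      have h1 := Metric.continuousAt_iff'.1 hc (ε / 2) (half_pos hε)
      rw [nhds_prod_eq] at h1
      obtain ⟨pa, hpa, pb, hpb, hab⟩ := Filter.eventually_prod_iff.1 h1
      refine ⟨{z | pb z}, mem_nhdsWithin_of_mem_nhds hpb, ?_⟩
      filter_upwards [hpa] with ω hω w hw
      have h2 := hab hω hw
      have h3 := hab hpa.self_of_nhds hw
      calc dist (ψ ω0 w) (ψ ω w) ≤ dist (ψ ω0 w) (ψ ω0 z) + dist (ψ ω0 z) (ψ ω w) :=
            dist_triangle _ _ _
        _ < ε := by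
            rw [dist_comm (ψ ω0 z)]
            have h2' : dist (ψ ω w) (ψ ω0 z) < ε / 2 := h2
            have h3' : dist (ψ ω0 w) (ψ ω0 z) < ε / 2 := h3
            linarith
    have hd := hlu.deriv (Filter.Eventually.of_forall fun ω => h.hol ω) hU
    have hc0 : ContinuousAt (deriv (ψ ω0)) z0 :=
      (((h.hol ω0).deriv hU).continuousOn).continuousAt (hU.mem_nhds hz0)
    show Filter.Tendsto (fun x : Ω × ℂ => deriv (ψ x.1) x.2) (𝓝 (ω0, z0)) (𝓝 (deriv (ψ ω0) z0))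
    refine tendsto_comp_of_locally_uniform_limit (F := fun x : Ω × ℂ => deriv (ψ x.1))
      (g := fun x => x.2) hc0 (continuous_snd.tendsto' _ _ rfl) ?_
    intro u hu
    obtain ⟨t, ht, h4⟩ := hd u hu z0 hz0
    rw [hU.nhdsWithin_eq hz0] at ht
    exact ⟨t, ht, (continuous_fst.tendsto' (ω0, z0) ω0 rfl).eventually h4⟩
  · intro ω z hz
    have h1 : deriv (fun t => ψ ω (t + 1)) z = deriv (ψ ω) (z + 1) := deriv_comp_add_const _ _ _
    show deriv (ψ ω) (z + 1) = deriv (ψ ω) z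
    rw [← h1]
    apply Filter.EventuallyEq.deriv_eq
    filter_upwards [hU.mem_nhds hz] with w hw
    exact h.per ω w hw

theorem d6_nice_contR {Ω : Type} [TopologicalSpace Ω] {r : ℝ} (hr : 0 < r) {ψ : Ω → ℂ → ℂ}
    (h : D6Nice r ψ) (a : ℝ) : Continuous (fun x : Ω × ℝ => ψ x.1 ((a + x.2 : ℝ) : ℂ)) := by
  have h1 : Continuous (fun x : Ω × ℝ => (x.1, ((a + x.2 : ℝ) : ℂ))) := by fun_prop
  exact h.cont.comp_continuous h1 (fun x => ⟨trivial, d6_real_mem hr _⟩)

theorem d6_nice_bdd {Ω : Type} [TopologicalSpace Ω] [CompactSpace Ω] {r : ℝ} (hr : 0 < r)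
    {ψ : Ω → ℂ → ℂ} (h : D6Nice r ψ) : ∃ B : ℝ, 0 ≤ B ∧ ∀ ω, ∀ x : ℝ, ‖ψ ω (x : ℂ)‖ ≤ B := by
  have hK : IsCompact ((Set.univ : Set Ω) ×ˢ ((fun x : ℝ => (x : ℂ)) '' Set.Icc 0 1)) :=
    isCompact_univ.prod (isCompact_Icc.image Complex.continuous_ofReal)
  have hsub : ((Set.univ : Set Ω) ×ˢ ((fun x : ℝ => (x : ℂ)) '' Set.Icc 0 1)) ⊆
      Set.univ ×ˢ St r := by
    rintro ⟨ω, z⟩ ⟨-, x, -, rfl⟩
    exact ⟨trivial, d6_real_mem hr x⟩
  obtain ⟨B, hB⟩ := hK.exists_bound_of_continuousOn (h.cont.mono hsub)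
  refine ⟨max B 0, le_max_right _ _, ?_⟩
  intro ω x
  have hp : Function.Periodic (fun x : ℝ => ψ ω (x : ℂ)) 1 := by
    intro t
    show ψ ω ((t + 1 : ℝ) : ℂ) = ψ ω (t : ℂ)
    rw [← h.per ω t (d6_real_mem hr t)]
    push_cast
    rfl
  obtain ⟨t, ht, hxt⟩ := hp.exists_mem_Ico₀ one_pos x
  have h1 : ψ ω (x : ℂ) = ψ ω (t : ℂ) := hxt
  rw [h1]
  exact (hB (ω, (t : ℂ)) ⟨trivial, t, ⟨ht.1, ht.2.le⟩, rfl⟩).trans (le_max_left _ _)

noncomputable section

/-- integrals of products -/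
def d6_G {Ω : Type} [MeasurableSpace Ω] (P : Measure Ω) {K : ℕ} (ψ : Fin K → Ω → ℂ → ℂ)
    (a : Fin K → ℝ) : ℂ := ∫ ω, ∏ k, ψ k ω.1 ((a k + ω.2 : ℝ) : ℂ) ∂(PP P)

/-- derivative of one factor -/
def d6_up {Ω : Type} {K : ℕ} (ψ : Fin K → Ω → ℂ → ℂ) (k : Fin K) : Fin K → Ω → ℂ → ℂ :=
  Function.update ψ k (fun ω => deriv (ψ k ω))

theorem d6_up_nice {Ω : Type} [TopologicalSpace Ω] {r : ℝ} {K : ℕ} {ψ : Fin K → Ω → ℂ → ℂ}
    (h : ∀ k, D6Nice r (ψ k)) (k : Fin K) : ∀ j, D6Nice r (d6_up ψ k j) := by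
  intro j
  unfold d6_up
  by_cases hj : j = k
  · subst hj
    rw [Function.update_self]
    exact d6_nice_deriv (h j)
  · rw [Function.update_of_ne hj]
    exact h j

section
variable {Ω : Type} [TopologicalSpace Ω] [CompactSpace Ω] [T2Space Ω] [SecondCountableTopology Ω]
  [MeasurableSpace Ω] [BorelSpace Ω] (P : Measure Ω) [IsProbabilityMeasure P]

theorem d6_fin : IsFiniteMeasure (PP P) := by
  unfold PP
  infer_instance

theorem d6_prod_cont {r : ℝ} (hr : 0 < r) {K : ℕ} {ψ : Fin K → Ω → ℂ → ℂ}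
    (h : ∀ k, D6Nice r (ψ k)) (a : Fin K → ℝ) :
    Continuous (fun ω : Ω × ℝ => ∏ k, ψ k ω.1 ((a k + ω.2 : ℝ) : ℂ)) :=
  continuous_finset_prod _ (fun k _ => d6_nice_contR hr (h k) (a k))

theorem d6_prod_bdd {r : ℝ} (hr : 0 < r) {K : ℕ} {ψ : Fin K → Ω → ℂ → ℂ}
    (h : ∀ k, D6Nice r (ψ k)) : ∃ B : ℝ, 0 ≤ B ∧ ∀ (a : Fin K → ℝ) (ω : Ω × ℝ),
      ‖∏ k, ψ k ω.1 ((a k + ω.2 : ℝ) : ℂ)‖ ≤ B := by
  choose B hB0 hB using fun k => d6_nice_bdd hr (h k)
  refine ⟨∏ k, B k, Finset.prod_nonneg (fun k _ => hB0 k), ?_⟩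
  intro a ω
  rw [norm_prod]
  exact Finset.prod_le_prod (fun k _ => norm_nonneg _) (fun k _ => hB k _ _)

theorem d6_int {r : ℝ} (hr : 0 < r) {K : ℕ} {ψ : Fin K → Ω → ℂ → ℂ}
    (h : ∀ k, D6Nice r (ψ k)) (a : Fin K → ℝ) :
    Integrable (fun ω : Ω × ℝ => ∏ k, ψ k ω.1 ((a k + ω.2 : ℝ) : ℂ)) (PP P) := by
  haveI := d6_fin P
  obtain ⟨B, -, hB⟩ := d6_prod_bdd hr h
  exact Integrable.of_bound (d6_prod_cont hr h a).aestronglyMeasurable B
    (Filter.Eventually.of_forall fun ω => hB a ω)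

theorem d6_hasFDeriv {r : ℝ} (hr : 0 < r) {K : ℕ} {ψ : Fin K → Ω → ℂ → ℂ}
    (h : ∀ k, D6Nice r (ψ k)) (a : Fin K → ℝ) :
    HasFDerivAt (d6_G P ψ) (∑ k, (ContinuousLinearMap.proj k : (Fin K → ℝ) →L[ℝ] ℝ).smulRight
      (d6_G P (d6_up ψ k) a)) a := by
  haveI := d6_fin P
  have hU := d6_St_open r
  have hup := d6_up_nice h
  choose B hB0 hB using fun k => d6_prod_bdd hr (hup k)
  have hL : ∀ (k : Fin K) (c : ℂ), (ContinuousLinearMap.proj k : (Fin K → ℝ) →L[ℝ] ℝ).smulRight c =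
      ContinuousLinearMap.smulRightL ℝ (Fin K → ℝ) ℂ (ContinuousLinearMap.proj k) c := fun k c => rfl
  have hcont : ∀ (k : Fin K) (a : Fin K → ℝ), Continuous (fun ω : Ω × ℝ =>
      (ContinuousLinearMap.proj k : (Fin K → ℝ) →L[ℝ] ℝ).smulRight
        (∏ j, d6_up ψ k j ω.1 ((a j + ω.2 : ℝ) : ℂ))) := by
    intro k a
    have := (ContinuousLinearMap.smulRightL ℝ (Fin K → ℝ) ℂ
      (ContinuousLinearMap.proj k)).continuous.comp (d6_prod_cont hr (hup k) a)
    exact this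
  have key := hasFDerivAt_integral_of_dominated_of_fderiv_le (μ := PP P) (x₀ := a)
    (F := fun (a : Fin K → ℝ) (ω : Ω × ℝ) => ∏ k, ψ k ω.1 ((a k + ω.2 : ℝ) : ℂ))
    (F' := fun (a : Fin K → ℝ) (ω : Ω × ℝ) => ∑ k,
      (ContinuousLinearMap.proj k : (Fin K → ℝ) →L[ℝ] ℝ).smulRight
        (∏ j, d6_up ψ k j ω.1 ((a j + ω.2 : ℝ) : ℂ)))
    (s := Set.univ)
    (bound := fun _ => ∑ k, ‖(ContinuousLinearMap.proj k : (Fin K → ℝ) →L[ℝ] ℝ)‖ * B k)
    Filter.univ_mem
    (Filter.Eventually.of_forall fun a => (d6_prod_cont hr h a).aestronglyMeasurable)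
    (d6_int P hr h a)
    (continuous_finset_sum _ (fun k _ => hcont k a)).aestronglyMeasurable
    (Filter.Eventually.of_forall fun ω b _ => by
      refine (norm_sum_le _ _).trans (Finset.sum_le_sum fun k _ => ?_)
      rw [ContinuousLinearMap.norm_smulRight_apply]
      exact mul_le_mul_of_nonneg_left (hB k b ω) (norm_nonneg _))
    (integrable_const _)
    (Filter.Eventually.of_forall fun ω b _ => by
      have h1 : ∀ k : Fin K, HasFDerivAt (fun a : Fin K → ℝ => ψ k ω.1 ((a k + ω.2 : ℝ) : ℂ))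
          ((ContinuousLinearMap.proj k : (Fin K → ℝ) →L[ℝ] ℝ).smulRight
            (deriv (ψ k ω.1) ((b k + ω.2 : ℝ) : ℂ))) b := by
        intro k
        have h2 : HasDerivAt (ψ k ω.1) (deriv (ψ k ω.1) ((b k + ω.2 : ℝ) : ℂ))
            ((b k + ω.2 : ℝ) : ℂ) :=
          (((h k).hol ω.1).differentiableAt (hU.mem_nhds (d6_real_mem hr _))).hasDerivAt
        have h3 := h2.comp_ofReal
        have h4 : HasFDerivAt (fun a : Fin K → ℝ => a k + ω.2)
            (ContinuousLinearMap.proj k : (Fin K → ℝ) →L[ℝ] ℝ) b :=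
          ((ContinuousLinearMap.proj k : (Fin K → ℝ) →L[ℝ] ℝ).hasFDerivAt).add_const ω.2
        have h5 := h3.hasFDerivAt.comp b h4
        refine h5.congr_fderiv ?_
        ext v
        simp
      have h6 := HasFDerivAt.finsetProd (u := Finset.univ) (x := b) (fun k _ => h1 k)
      refine h6.congr_fderiv ?_
      refine Finset.sum_congr rfl fun k _ => ?_
      have h7 : ∏ j, d6_up ψ k j ω.1 ((b j + ω.2 : ℝ) : ℂ) =
          (∏ j ∈ Finset.univ.erase k, ψ j ω.1 ((b j + ω.2 : ℝ) : ℂ)) *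
            deriv (ψ k ω.1) ((b k + ω.2 : ℝ) : ℂ) := by
        rw [← Finset.mul_prod_erase Finset.univ _ (Finset.mem_univ k), mul_comm]
        congr 1
        · refine Finset.prod_congr rfl fun j hj => ?_
          unfold d6_up
          rw [Function.update_of_ne (Finset.ne_of_mem_erase hj)]
        · unfold d6_up
          rw [Function.update_self]
      rw [h7]
      ext v
      simp
      ring)
  refine key.congr_fderiv ?_
  rw [integral_finset_sum]
  · refine Finset.sum_congr rfl fun k _ => ?_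
    rw [hL]
    have := (ContinuousLinearMap.smulRightL ℝ (Fin K → ℝ) ℂ
      (ContinuousLinearMap.proj k)).integral_comp_comm (d6_int P hr (hup k) a)
    exact this
  · intro k _
    have := (ContinuousLinearMap.smulRightL ℝ (Fin K → ℝ) ℂ
      (ContinuousLinearMap.proj k)).integrable_comp (d6_int P hr (hup k) a)
    exact this

theorem d6_contDiff {r : ℝ} (hr : 0 < r) {K : ℕ} (n : ℕ) : ∀ {ψ : Fin K → Ω → ℂ → ℂ},
    (∀ k, D6Nice r (ψ k)) → ContDiff ℝ n (d6_G P ψ) := by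
  induction n with
  | zero =>
    intro ψ h
    rw [Nat.cast_zero, contDiff_zero]
    exact continuous_iff_continuousAt.2 fun a => (d6_hasFDeriv P hr h a).continuousAt
  | succ n ih =>
    intro ψ h
    rw [Nat.cast_succ]
    refine contDiff_succ_iff_hasFDerivAt.2 ⟨fun a => ∑ k,
      (ContinuousLinearMap.proj k : (Fin K → ℝ) →L[ℝ] ℝ).smulRight (d6_G P (d6_up ψ k) a), ?_,
      fun a => d6_hasFDeriv P hr h a⟩
    refine ContDiff.sum fun k _ => ?_
    have := (ContinuousLinearMap.smulRightL ℝ (Fin K → ℝ) ℂ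
      (ContinuousLinearMap.proj k)).contDiff.comp (ih (d6_up_nice h k))
    exact this

end

theorem d6_lam_contDiff (q i : ℕ) : ContDiff ℝ 2 (lam q i) := by
  unfold lam
  refine ContDiff.mul (contDiff_prod fun k _ => ?_) (contDiff_prod fun k _ => ?_)
  · by_cases h : (k : ℕ) < i
    · simp only [h, if_true]
      exact contDiff_apply ℝ ℝ k
    · simp only [h, if_false]
      exact contDiff_const
  · by_cases h : (k : ℕ) = i
    · simp only [h, if_true]
      exact contDiff_const.sub (contDiff_apply ℝ ℝ k)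
    · simp only [h, if_false]
      exact contDiff_const

theorem d6_lam_deriv (q i : ℕ) (a : Fin q) (u : Fin q → ℝ) :
    HasDerivAt (fun t => lam q i (Function.update u a t)) (dlam q i a u) (u a) := by
  have h1 : Differentiable ℝ (lam q i) := (d6_lam_contDiff q i).differentiable (by norm_num)
  have h2 : Differentiable ℝ (fun t : ℝ => Function.update u a t) := by
    intro t
    exact (hasDerivAt_update u a t).differentiableAt
  exact ((h1.comp h2) (u a)).hasDerivAt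

theorem d6_HB_shift {s : ℝ} {κ : ℂ → ℂ} (h : HB s κ) (c : ℝ) : HB s (fun z => κ (z - c)) := by
  have hm : ∀ z ∈ St s, z - (c : ℂ) ∈ St s := by
    intro z hz
    show |(z - (c : ℂ)).im| < s
    rw [Complex.sub_im, Complex.ofReal_im, sub_zero]
    exact hz
  refine ⟨?_, ?_, ?_⟩
  · exact h.hol.comp (differentiableOn_id.sub_const _) hm
  · intro z hz
    show κ (z + 1 - c) = κ (z - c)
    rw [← h.per _ (hm z hz)]
    congr 1
    ring
  · obtain ⟨B, hB⟩ := h.bdd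
    exact ⟨B, fun z hz => hB _ (hm z hz)⟩

section
variable {Ω : Type} [TopologicalSpace Ω] [CompactSpace Ω] [T2Space Ω] [SecondCountableTopology Ω]
  [MeasurableSpace Ω] [BorelSpace Ω] {P : Measure Ω} [IsProbabilityMeasure P]

theorem d6_w_int {η : Ω → ℂ → ℂ} {w : Ω → (ℂ → ℂ) → ℂ} {s0 C : ℝ} (h : SMD s0 Ω P η w C)
    {κ : ℂ → ℂ} (hκ : HB s0 κ) :
    Integrable (fun x : Ω × ℝ => w x.1 (fun z => κ (z - x.2))) (PP P) := by
  have hm : AEStronglyMeasurable (fun x : Ω × ℝ => w x.1 (fun z => κ (z - x.2))) (PP P) :=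
    (h.meas κ hκ).aestronglyMeasurable
  obtain ⟨B, hB⟩ := hκ.bdd
  unfold PP at hm ⊢
  rw [integrable_prod_iff' hm]
  constructor
  · exact Filter.Eventually.of_forall fun c => h.int _ (d6_HB_shift hκ c)
  · refine Integrable.of_bound (hm.norm.prod_swap.integral_prod_right') (C * B) ?_
    refine Filter.Eventually.of_forall fun c => ?_
    rw [Real.norm_eq_abs, abs_of_nonneg (integral_nonneg fun _ => norm_nonneg _)]
    have hm' : ∀ z ∈ St s0, z - (c : ℂ) ∈ St s0 := by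
      intro z hz
      show |(z - (c : ℂ)).im| < s0
      rw [Complex.sub_im, Complex.ofReal_im, sub_zero]
      exact hz
    exact h.bdd _ B (d6_HB_shift hκ c) (fun z hz => hB _ (hm' z hz))

theorem d6_exp_nice {η : Ω → ℂ → ℂ} {w : Ω → (ℂ → ℂ) → ℂ} {s0 C : ℝ} (h : SMD s0 Ω P η w C)
    (m : ℤ) : D6Nice (s0 / 4) (fun ω z => Complex.exp (2 * π * Complex.I * ((m : ℂ) * η ω z))) := by
  refine ⟨?_, ?_, ?_⟩
  · exact Complex.continuous_exp.comp_continuousOn
      (continuousOn_const.mul (continuousOn_const.mul h.cont))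
  · intro ω
    exact (((h.adm ω).hol.const_mul (m : ℂ)).const_mul (2 * π * Complex.I)).cexp
  · intro ω z hz
    show Complex.exp (2 * π * Complex.I * ((m : ℂ) * η ω (z + 1))) =
      Complex.exp (2 * π * Complex.I * ((m : ℂ) * η ω z))
    rw [(h.adm ω).per z hz]
    have h1 : 2 * π * Complex.I * ((m : ℂ) * (η ω z + 1)) =
        2 * π * Complex.I * ((m : ℂ) * η ω z) + m * (2 * π * Complex.I) := by ring
    rw [h1, Complex.exp_add, Complex.exp_int_mul_two_pi_mul_I, mul_one]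

theorem d6_main {η : Ω → ℂ → ℂ} {w : Ω → (ℂ → ℂ) → ℂ} {s0 C : ℝ} (hs0 : 0 < s0)
    (h : SMD s0 Ω P η w C) {K : ℕ} (m : Fin K → ℤ) (b v : Fin K → ℝ) {κ : ℂ → ℂ} (hκ : HB s0 κ)
    (hv : ∀ k, κ (b k) = (v k : ℂ)) :
    ∑ k, v k • d6_G P (d6_up (fun k ω z => Complex.exp (2 * π * Complex.I * ((m k : ℂ) * η ω z))) k) b =
      ∫ ω : Ω × ℝ, Complex.exp (2 * π * Complex.I * ∑ k, (m k : ℂ) *
        (((η ω.1 ((b k + ω.2 : ℝ) : ℂ)).re : ℝ) : ℂ)) * ww w ω κ ∂(PP P) := by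
  haveI := d6_fin P
  have hU := d6_St_open (s0 / 4)
  have hr : 0 < s0 / 4 := by linarith
  have hnice : ∀ k, D6Nice (s0 / 4)
      (fun ω z => Complex.exp (2 * π * Complex.I * ((m k : ℂ) * η ω z))) :=
    fun k => d6_exp_nice h (m k)
  have hreal : ∀ ω (x : ℝ), (((η ω (x : ℂ)).re : ℝ) : ℂ) = η ω x := by
    intro ω x
    apply Complex.ext
    · simp
    · simp [(h.adm ω).real x]
  have hprod : ∀ ω : Ω × ℝ, ∏ k, Complex.exp (2 * π * Complex.I * ((m k : ℂ) *
      η ω.1 ((b k + ω.2 : ℝ) : ℂ))) = Complex.exp (2 * π * Complex.I * ∑ k, (m k : ℂ) *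
        η ω.1 ((b k + ω.2 : ℝ) : ℂ)) := by
    intro ω
    rw [← Complex.exp_sum, Finset.mul_sum]
  have hder : ∀ (ω : Ω) (k : Fin K) (x : ℝ), deriv (fun z => Complex.exp (2 * π * Complex.I *
      ((m k : ℂ) * η ω z))) (x : ℂ) = (2 * π * Complex.I * ((m k : ℂ) * deriv (η ω) x)) *
        Complex.exp (2 * π * Complex.I * ((m k : ℂ) * η ω x)) := by
    intro ω k x
    have h1 := ((h.adm ω).hol.differentiableAt (hU.mem_nhds (d6_real_mem hr x))).hasDerivAt
    have h2 := ((h1.const_mul (m k : ℂ)).const_mul (2 * π * Complex.I)).cexp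
    rw [h2.deriv]
    ring
  have hup : ∀ (k : Fin K) (ω : Ω × ℝ), ∏ j, d6_up (fun k ω z => Complex.exp (2 * π * Complex.I *
      ((m k : ℂ) * η ω z))) k j ω.1 ((b j + ω.2 : ℝ) : ℂ) =
      (2 * π * Complex.I * ((m k : ℂ) * deriv (η ω.1) ((b k + ω.2 : ℝ) : ℂ))) *
        Complex.exp (2 * π * Complex.I * ∑ k, (m k : ℂ) * η ω.1 ((b k + ω.2 : ℝ) : ℂ)) := by
    intro k ω
    rw [← hprod, ← Finset.mul_prod_erase Finset.univ _ (Finset.mem_univ k),
      ← Finset.mul_prod_erase Finset.univ (fun k => Complex.exp (2 * π * Complex.I * ((m k : ℂ) *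
      η ω.1 ((b k + ω.2 : ℝ) : ℂ)))) (Finset.mem_univ k), ← mul_assoc]
    congr 1
    · unfold d6_up
      rw [Function.update_self]
      exact hder ω.1 k (b k + ω.2)
    · refine Finset.prod_congr rfl fun j hj => ?_
      unfold d6_up
      rw [Function.update_of_ne (Finset.ne_of_mem_erase hj)]
  have hsumeq : ∀ ω : Ω × ℝ, ∑ k, v k • ∏ j, d6_up (fun k ω z => Complex.exp (2 * π * Complex.I *
        ((m k : ℂ) * η ω z))) k j ω.1 ((b j + ω.2 : ℝ) : ℂ) =
      (2 * π * Complex.I * ∑ k, (m k : ℂ) *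
        deriv (η ω.1) ((b k + ω.2 : ℝ) : ℂ) * (v k : ℂ)) *
        Complex.exp (2 * π * Complex.I * ∑ k, (m k : ℂ) * η ω.1 ((b k + ω.2 : ℝ) : ℂ)) := by
    intro ω
    have e1 : ∀ k, v k • ∏ j, d6_up (fun k ω z => Complex.exp (2 * π * Complex.I *
        ((m k : ℂ) * η ω z))) k j ω.1 ((b j + ω.2 : ℝ) : ℂ) =
        (2 * π * Complex.I * ((m k : ℂ) * deriv (η ω.1) ((b k + ω.2 : ℝ) : ℂ) * (v k : ℂ))) *
        Complex.exp (2 * π * Complex.I * ∑ k, (m k : ℂ) * η ω.1 ((b k + ω.2 : ℝ) : ℂ)) := by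
      intro k
      rw [hup, Complex.real_smul]
      ring
    rw [Finset.sum_congr rfl (fun k _ => e1 k), ← Finset.sum_mul, ← Finset.mul_sum]
  -- both sides as integrals over the product
  have hA : ∑ k, v k • d6_G P (d6_up (fun k ω z => Complex.exp (2 * π * Complex.I *
      ((m k : ℂ) * η ω z))) k) b = ∫ ω : Ω × ℝ, (2 * π * Complex.I * ∑ k, (m k : ℂ) *
        deriv (η ω.1) ((b k + ω.2 : ℝ) : ℂ) * (v k : ℂ)) *
        Complex.exp (2 * π * Complex.I * ∑ k, (m k : ℂ) * η ω.1 ((b k + ω.2 : ℝ) : ℂ)) ∂(PP P) := by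
    unfold d6_G
    have h1 : ∀ k, v k • ∫ ω : Ω × ℝ, ∏ j, d6_up (fun k ω z => Complex.exp (2 * π * Complex.I *
        ((m k : ℂ) * η ω z))) k j ω.1 ((b j + ω.2 : ℝ) : ℂ) ∂(PP P) =
        ∫ ω : Ω × ℝ, v k • ∏ j, d6_up (fun k ω z => Complex.exp (2 * π * Complex.I *
        ((m k : ℂ) * η ω z))) k j ω.1 ((b j + ω.2 : ℝ) : ℂ) ∂(PP P) := by
      intro k
      rw [integral_smul]
    rw [Finset.sum_congr rfl (fun k _ => h1 k), ← integral_finset_sum]
    · refine integral_congr_ae (Filter.Eventually.of_forall fun ω => ?_)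
      exact hsumeq ω
    · intro k _
      exact (d6_int P hr (d6_up_nice hnice k) b).smul (v k)
  have hAint : Integrable (fun ω : Ω × ℝ => (2 * π * Complex.I * ∑ k, (m k : ℂ) *
        deriv (η ω.1) ((b k + ω.2 : ℝ) : ℂ) * (v k : ℂ)) *
        Complex.exp (2 * π * Complex.I * ∑ k, (m k : ℂ) * η ω.1 ((b k + ω.2 : ℝ) : ℂ))) (PP P) := by
    have h1 : Integrable (fun ω : Ω × ℝ => ∑ k, v k • ∏ j, d6_up (fun k ω z => Complex.exp (2 * π *
        Complex.I * ((m k : ℂ) * η ω z))) k j ω.1 ((b j + ω.2 : ℝ) : ℂ)) (PP P) :=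
      integrable_finset_sum _ (fun k _ => (d6_int P hr (d6_up_nice hnice k) b).smul (v k))
    refine h1.congr (Filter.Eventually.of_forall fun ω => ?_)
    exact hsumeq ω
  have hBint : Integrable (fun ω : Ω × ℝ => Complex.exp (2 * π * Complex.I * ∑ k, (m k : ℂ) *
        η ω.1 ((b k + ω.2 : ℝ) : ℂ)) * w ω.1 (fun z => κ (z - ω.2))) (PP P) := by
    obtain ⟨B, hB0, hB⟩ := d6_prod_bdd hr hnice
    have h1 : Continuous (fun ω : Ω × ℝ => Complex.exp (2 * π * Complex.I * ∑ k, (m k : ℂ) *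
        η ω.1 ((b k + ω.2 : ℝ) : ℂ))) := by
      have h2 := d6_prod_cont hr hnice b
      have h3 : (fun ω : Ω × ℝ => Complex.exp (2 * π * Complex.I * ∑ k, (m k : ℂ) *
        η ω.1 ((b k + ω.2 : ℝ) : ℂ))) = fun ω : Ω × ℝ => ∏ k, Complex.exp (2 * π * Complex.I *
          ((m k : ℂ) * η ω.1 ((b k + ω.2 : ℝ) : ℂ))) := funext fun ω => (hprod ω).symm
      rw [h3]
      exact h2
    refine (d6_w_int h hκ).bdd_mul h1.aestronglyMeasurable (c := B) ?_
    refine Filter.Eventually.of_forall fun ω => ?_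
    rw [← hprod]
    exact hB b ω
  rw [hA]
  have hB' : (fun ω : Ω × ℝ => Complex.exp (2 * π * Complex.I * ∑ k, (m k : ℂ) *
        (((η ω.1 ((b k + ω.2 : ℝ) : ℂ)).re : ℝ) : ℂ)) * ww w ω κ) =
      fun ω : Ω × ℝ => Complex.exp (2 * π * Complex.I * ∑ k, (m k : ℂ) *
        η ω.1 ((b k + ω.2 : ℝ) : ℂ)) * w ω.1 (fun z => κ (z - ω.2)) := by
    funext ω
    simp only [hreal]
    rfl
  rw [hB']
  unfold PP at hAint hBint ⊢
  rw [integral_prod_symm _ hAint, integral_prod_symm _ hBint]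
  refine integral_congr_ae (Filter.Eventually.of_forall fun c => ?_)
  have h1 := h.ibp (fun z => κ (z - c)) (d6_HB_shift hκ c) K (fun k => b k + c) m
  have h2 : ∀ k, κ (((b k + c : ℝ) : ℂ) - c) = (v k : ℂ) := by
    intro k
    rw [← hv k]
    congr 1
    push_cast
    ring
  simp only [h2] at h1
  exact h1

end

theorem st_D6 (hD2 : ST_D2) : ST_D6 := by
  intro n n' ρ s M s0 Ω _ _ _ _ _ _ P _ η w Cw ctx K x m q y hy
  have hr : 0 < s0 / 4 := by
    have := ctx.s0pos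
    linarith
  have hsmd := ctx.smd
  have hn1 : 1 ≤ n := ctx.good.1
  have hnice : ∀ k, D6Nice (s0 / 4)
      (fun ω z => Complex.exp (2 * π * Complex.I * ((m k : ℂ) * η ω z))) :=
    fun k => d6_exp_nice hsmd (m k)
  have hreal : ∀ ω (x : ℝ), (((η ω (x : ℂ)).re : ℝ) : ℂ) = η ω x := by
    intro ω x
    apply Complex.ext
    · simp
    · simp [(hsmd.adm ω).real x]
  have hF : (fun u : Fin q → ℝ => ∫ ω, Complex.exp (2 * π * Complex.I * ∑ k, (m k : ℂ) *
        ((gg η ω (Phi q y u) (x k) : ℝ) : ℂ)) ∂(PP P)) =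
      fun u => d6_G P (fun k ω z => Complex.exp (2 * π * Complex.I * ((m k : ℂ) * η ω z)))
        (fun k => Phi q y u (x k)) := by
    funext u
    unfold d6_G
    refine integral_congr_ae (Filter.Eventually.of_forall fun ω => ?_)
    show Complex.exp (2 * π * Complex.I * ∑ k, (m k : ℂ) *
        ((gg η ω (Phi q y u) (x k) : ℝ) : ℂ)) = _
    unfold gg
    simp only [hreal]
    rw [← Complex.exp_sum, Finset.mul_sum]
  have hp : ContDiff ℝ 2 (fun (u : Fin q → ℝ) (k : Fin K) => Phi q y u (x k)) := by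
    refine contDiff_pi.2 fun k => ?_
    unfold Phi
    exact ContDiff.sum fun i _ => (d6_lam_contDiff q i).mul contDiff_const
  refine ⟨?_, ?_⟩
  · show ContDiff ℝ 2 (fun u : Fin q → ℝ => ∫ ω, Complex.exp (2 * π * Complex.I * ∑ k, (m k : ℂ) *
        ((gg η ω (Phi q y u) (x k) : ℝ) : ℂ)) ∂(PP P))
    rw [hF]
    have h1 := d6_contDiff P hr 2 hnice
    exact ContDiff.comp (g := d6_G P (fun k ω z => Complex.exp (2 * π * Complex.I *
      ((m k : ℂ) * η ω z)))) (by exact_mod_cast h1) hp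
  · intro u hu a
    have hΦ : Phi q y u ∈ AA n := hD2.2.2.2.2.2.2.1 n hn1 q y hy u hu
    obtain ⟨K', hK'⟩ := hD2.2.2.2.2.2.2.2 n hn1 q y hy
    have hv := hK' u hu a
    have hinv := ctx.inv
    have hκ : HB s0 (pull ρ (Phi q y u) (dPhi q y a u)) := by
      have hsub : ∀ z ∈ St s0, z ∈ St s := fun z hz => lt_trans hz ctx.s0lt
      have hmem : ∀ z ∈ St s0, cinv ρ (Phi q y u) z ∈ St (2 * ρ) := by
        intro z hz
        have h1 := (hinv.inv _ hΦ z (hsub z hz)).1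
        have h2 : 0 < ρ := hinv.pos.1.trans_le hinv.pos.2.1
        have h3 : |(cinv ρ (Phi q y u) z).im| < ρ := h1
        show |(cinv ρ (Phi q y u) z).im| < 2 * ρ
        linarith
      refine ⟨?_, ?_, ?_⟩
      · exact (hinv.vhol K' _ hv).comp ((hinv.invhol _ hΦ).mono hsub) hmem
      · intro z hz
        show four (dPhi q y a u) (cinv ρ (Phi q y u) (z + 1)) =
          four (dPhi q y a u) (cinv ρ (Phi q y u) z)
        rw [(hinv.inv _ hΦ z (hsub z hz)).2.2]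
        exact (hinv.vbd K' _ hv _ (hmem z hz)).1
      · exact ⟨M * K', fun z hz => (hinv.vbd K' _ hv _ (hmem z hz)).2⟩
    have hκv : ∀ k, pull ρ (Phi q y u) (dPhi q y a u) ((Phi q y u (x k) : ℝ) : ℂ) =
        ((dPhi q y a u (x k) : ℝ) : ℂ) := by
      intro k
      unfold pull
      rw [hinv.invreal _ hΦ, hinv.vreal K' _ hv]
    have hmain := d6_main ctx.s0pos hsmd m (fun k => Phi q y u (x k))
      (fun k => dPhi q y a u (x k)) hκ hκv
    show HasDerivAt (fun t => (fun u : Fin q → ℝ => ∫ ω, Complex.exp (2 * π * Complex.I * ∑ k,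
      (m k : ℂ) * ((gg η ω (Phi q y u) (x k) : ℝ) : ℂ)) ∂(PP P)) (Function.update u a t)) _ (u a)
    rw [hF]
    have hpd : HasDerivAt (fun t => fun k : Fin K => Phi q y (Function.update u a t) (x k))
        (fun k => dPhi q y a u (x k)) (u a) := by
      refine hasDerivAt_pi.2 fun k => ?_
      unfold Phi dPhi
      exact HasDerivAt.fun_sum fun i _ => (d6_lam_deriv q i a u).mul_const (y i (x k))
    have hG := d6_hasFDeriv P hr hnice (fun k => Phi q y (Function.update u a (u a)) (x k))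
    have hc := hG.comp_hasDerivAt (u a) hpd
    rw [Function.update_eq_self] at hc
    refine hc.congr_deriv ?_
    refine Eq.trans ?_ hmain
    rw [ContinuousLinearMap.sum_apply]
    rfl

end

end Pool.Agent.Helper67.DO
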